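import Mathlib

set_option autoImplicit false

namespace Pool.Agent.Results.MP_2f8eff_co.Disproof

/-- The interval: vertices on some shortest `u`-`v` path. -/
def interval {V : Type} (G : SimpleGraph V) (u v : V) : Set V :=
  {w | ∃ p : G.Walk u v, p.IsPath ∧ p.length = G.dist u v ∧ w ∈ p.support}

/-- Median graphs. -/
def IsMedian {V : Type} (G : SimpleGraph V) : Prop :=
  G.Connected ∧ ∀ u v w, ∃! m, m ∈ interval G u v ∩ interval G u w ∩ interval G v w

noncomputable def d3 {V : Type} (G : SimpleGraph V) (a b c : V) : ℕ := G.dist a b + G.dist b c + G.dist a c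

/-- A triple attaining the triameter. -/
def Triametral {V : Type} (G : SimpleGraph V) (a b c : V) : Prop :=
  ∀ x y z, d3 G x y z ≤ d3 G a b c

/-- A vertex whose eccentricity is the diameter. -/
def Peripheral {V : Type} (G : SimpleGraph V) (v : V) : Prop :=
  ∃ u, ∀ x y, G.dist x y ≤ G.dist u v

lemma dist_of {V : Type} (G : SimpleGraph V) (D : V → V → ℕ) (h0 : ∀ u, D u u = 0)
    (h1 : ∀ u v, D u v = 0 → u = v) (h2 : ∀ u w, G.Adj u w → ∀ v, D u v ≤ D w v + 1)
    (h3 : ∀ u v, D u v ≠ 0 → ∃ w, G.Adj u w ∧ D w v + 1 = D u v) :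
    (∀ u v, G.Reachable u v) ∧ ∀ u v, G.dist u v = D u v := by
  have ex : ∀ n u v, D u v = n → ∃ p : G.Walk u v, p.length = n := by
    intro n
    induction n with
    | zero => intro u v h; obtain rfl := h1 u v h; exact ⟨.nil, rfl⟩
    | succ n ih =>
      intro u v h
      obtain ⟨w, ha, hw⟩ := h3 u v (by omega)
      obtain ⟨p, hp⟩ := ih w v (by omega)
      exact ⟨.cons ha p, by simp [hp]⟩
  have ge : ∀ u v (p : G.Walk u v), D u v ≤ p.length := by
    intro u v p
    induction p with
    | nil => simp [h0]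
    | cons ha p ih => exact (h2 _ _ ha _).trans (by simpa using ih)
  refine ⟨fun u v => (ex _ u v rfl).elim fun p _ => ⟨p⟩, fun u v => ?_⟩
  obtain ⟨p, hp⟩ := ex _ u v rfl
  apply le_antisymm
  · rw [← hp]; exact SimpleGraph.dist_le p
  · obtain ⟨q, hq⟩ := SimpleGraph.Reachable.exists_walk_length_eq_dist ⟨p⟩
    rw [← hq]; exact ge u v q

lemma mem_interval {V : Type} [DecidableEq V] (G : SimpleGraph V) (hc : G.Connected)
    (u v w : V) : w ∈ interval G u v ↔ G.dist u w + G.dist w v = G.dist u v := by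
  constructor
  · rintro ⟨p, -, hp, hw⟩
    have h1 := SimpleGraph.dist_le (p.takeUntil w hw)
    have h2 := SimpleGraph.dist_le (p.dropUntil w hw)
    have h3 := congrArg SimpleGraph.Walk.length (p.take_spec hw)
    rw [SimpleGraph.Walk.length_append] at h3
    have h4 := hc.dist_triangle (u := u) (v := w) (w := v)
    omega
  · intro h
    obtain ⟨p, hp⟩ := (hc u w).exists_walk_length_eq_dist
    obtain ⟨q, hq⟩ := (hc w v).exists_walk_length_eq_dist
    have hl : (p.append q).length = G.dist u v := by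
      rw [SimpleGraph.Walk.length_append]; omega
    exact ⟨p.append q, (p.append q).isPath_of_length_eq_dist hl, hl, by simp⟩

def X : Fin 8 → ℕ := ![0, 0, 0, 1, 1, 1, 2, 2]
def Y : Fin 8 → ℕ := ![0, 1, 2, 0, 1, 2, 0, 1]
def D (u v : Fin 8) : ℕ := (X u - X v) + (X v - X u) + (Y u - Y v) + (Y v - Y u)

/-- The `3 x 3` grid with one corner removed. -/
def G0 : SimpleGraph (Fin 8) where
  Adj u v := D u v = 1
  symm := ⟨by decide +kernel⟩
  loopless := ⟨by decide +kernel⟩

instance : DecidableRel G0.Adj := fun u v => inferInstanceAs (Decidable (D u v = 1))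

lemma hD : (∀ u v, G0.Reachable u v) ∧ ∀ u v, G0.dist u v = D u v :=
  dist_of G0 D (by decide +kernel) (by decide +kernel) (by decide +kernel) (by decide +kernel)

set_option synthInstance.maxSize 4000 in
lemma med : ∀ u v w, ∃ m, ((D u m + D m v = D u v ∧ D u m + D m w = D u w) ∧
    D v m + D m w = D v w) ∧ ∀ m', ((D u m' + D m' v = D u v ∧ D u m' + D m' w = D u w) ∧
    D v m' + D m' w = D v w) → m' = m := by decide +kernel

theorem result :
    ∃ (V : Type) (_ : Fintype V) (G : SimpleGraph V) (a b c : V), IsMedian G ∧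
      Triametral G a b c ∧ ¬ Peripheral G a ∧ ¬ Peripheral G b ∧ ¬ Peripheral G c := by
  have hc : G0.Connected := ⟨hD.1⟩
  refine ⟨Fin 8, inferInstance, G0, 0, 5, 7, ⟨hc, fun u v w => ?_⟩, ?_, ?_, ?_, ?_⟩
  · simp only [Set.mem_inter_iff, mem_interval G0 hc, hD.2]
    exact med u v w
  · simp only [Triametral, d3, hD.2]; decide +kernel
  · simp only [Peripheral, hD.2]; decide +kernel
  · simp only [Peripheral, hD.2]; decide +kernel
  · simp only [Peripheral, hD.2]; decide +kernel

end Pool.Agent.Results.MP_2f8eff_co.Disproof
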